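import Pool.Agent.LAT.StmtsC
import Pool.Agent.Helper21_LAT.FIS

/-!
# Squad LAT, row GDW: Gram determinant and distance to the real span
-/

set_option autoImplicit false

namespace Pool.Agent.LAT.H41

open Matrix Pool.Agent.LAT

/-- The real span of a subgroup which is given by generators. -/
theorem RS_span {m r : ℕ} (b : Fin r → Fin m → ℤ) :
    RS (Submodule.span ℤ (Set.range b)) = Submodule.span ℝ (Set.range fun i => rv (b i)) := by
  apply le_antisymm
  · refine Submodule.span_le.2 ?_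
    rintro _ ⟨w, hw, rfl⟩
    obtain ⟨c, hc⟩ := (Submodule.mem_span_range_iff_exists_fun ℤ).1 hw
    have h : rv w = ∑ i, (c i : ℝ) • rv (b i) := by
      funext k
      rw [Finset.sum_apply]
      change ((w k : ℤ) : ℝ) = _
      rw [← hc, Finset.sum_apply]
      push_cast
      refine Finset.sum_congr rfl fun j _ => ?_
      rw [Pi.smul_apply, Pi.smul_apply, smul_eq_mul, smul_eq_mul]
      push_cast
      rfl
    rw [h]
    exact Submodule.sum_mem _ fun i _ => Submodule.smul_mem _ _ (Submodule.subset_span ⟨i, rfl⟩)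
  · refine Submodule.span_le.2 ?_
    rintro _ ⟨i, rfl⟩
    exact Submodule.subset_span ⟨b i, Submodule.subset_span ⟨i, rfl⟩, rfl⟩

/-- GDW. -/
theorem gdw (hB : BasStmt) (hP : PosStmt) (hG : GsdStmt) : GdwStmt := by
  intro m M w hw
  obtain ⟨r, b, hb, rfl⟩ := H21.exists_basis_family M
  have hb' := H21.snoc_li b hb w hw
  obtain ⟨gb, -⟩ := H21.gd_span hB b hb
  obtain ⟨gb', -⟩ := H21.gd_span hB _ hb'
  rw [H21.span_snoc] at gb'
  have pb : (1 : ℝ) ≤ (rgram (H21.rv b)).det := by
    rw [← H21.cast_gram]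
    exact_mod_cast hP.1 m r b hb
  obtain ⟨δ, h3, h4, y0, h5⟩ := hG m r (H21.rv b) (rv w) (ne_of_gt (by linarith))
  have hgb : (gd (Submodule.span ℤ (Set.range b)) : ℝ) = (rgram (H21.rv b)).det := by
    rw [gb, H21.cast_gram]
  have key : (gd (Submodule.span ℤ (Set.range b) ⊔ Submodule.span ℤ {w}) : ℝ) =
      gd (Submodule.span ℤ (Set.range b)) * δ := by
    rw [gb', hgb, H21.cast_gram, H21.rv_snoc]
    exact h3
  rw [key, RS_span b]
  constructor
  · intro p hp
    obtain ⟨y, rfl⟩ := (Submodule.mem_span_range_iff_exists_fun ℝ).1 hp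
    refine mul_le_mul_of_nonneg_left (h4 y) ?_
    rw [hgb]
    linarith
  · refine ⟨∑ i, y0 i • rv (b i), ?_, ?_⟩
    · exact (Submodule.mem_span_range_iff_exists_fun ℝ).2 ⟨y0, rfl⟩
    · rw [h5]
      rfl

end Pool.Agent.LAT.H41
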