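import Pool.Agent.LAT.StmtsC

/-!
# Squad LAT, row TLE: existence of a tail
-/

set_option autoImplicit false

namespace Pool.Agent.LAT.H41

open Matrix Pool.Agent.LAT

/-- The norm of an integer vector. -/
theorem sq_rv {m : ℕ} (x : Fin m → ℤ) : sq (rv x) = ((x ⬝ᵥ x : ℤ) : ℝ) := by
  unfold sq rv dotProduct
  push_cast
  rfl

/-- Orthogonal sums. -/
theorem sq_add_orth {m : ℕ} (a q : Fin m → ℝ) (h : a ⬝ᵥ q = 0) : sq a ≤ sq (a + q) := by
  unfold sq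
  have h1 : (a + q) ⬝ᵥ (a + q) = a ⬝ᵥ a + q ⬝ᵥ q := by
    rw [add_dotProduct, dotProduct_add, dotProduct_add, dotProduct_comm q a, h]
    ring
  have h2 : 0 ≤ q ⬝ᵥ q := Finset.sum_nonneg fun i _ => mul_self_nonneg (q i)
  rw [h1]
  linarith

theorem LB_full {m : ℕ} (G : Matrix (Fin m) (Fin m) ℤ) : LB G m = G := by
  apply Matrix.ext
  intro i j
  simp [LB]

/-- TLE. -/
theorem tle (dsr : DsrStmt) (rdu : RduStmt) (ggp : GgpStmt) : TleStmt := by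
  intro n m d A v B hB hBA hc
  obtain ⟨c, hc⟩ := hc
  obtain ⟨u, hu1, hu2, -⟩ := rdu m B (c ᵥ* A) hB
  have hcA : c ᵥ* A ∈ rows A := by
    rw [Matrix.vecMul_eq_sum]
    exact Submodule.sum_mem _ fun i _ => Submodule.smul_mem _ _ (Submodule.subset_span ⟨i, rfl⟩)
  have huA : u ∈ rows A := by
    have h1 : u = c ᵥ* A - (c ᵥ* A - u) := by abel
    rw [h1]
    exact Submodule.sub_mem _ hcA (hBA hu2)
  obtain ⟨z, hz⟩ := (Submodule.mem_span_range_iff_exists_fun ℤ).1 huA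
  obtain ⟨⟨y, hy⟩, -, h3⟩ := dsr m B (v - u) hB
  obtain ⟨p, hp, hort, hdist⟩ := h3 y hy
  refine ⟨u, z, y, ⟨?_, hu1, hy, ?_⟩⟩
  · rw [Matrix.vecMul_eq_sum]
    exact hz
  · have hdet : (1 : ℤ) ≤ (GG B).det := by
      have := ggp m B hB m le_rfl
      rwa [LB_full] at this
    have hdetR : (0 : ℝ) ≤ ((GG B).det : ℝ) := by
      have : (1 : ℝ) ≤ ((GG B).det : ℝ) := by exact_mod_cast hdet
      linarith
    have hq : p - rv (c ᵥ* A - u) ∈ RS (rows B) :=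
      Submodule.sub_mem _ hp (Submodule.subset_span ⟨_, hu2, rfl⟩)
    have h4 := sq_add_orth (rv (v - u) - p) (p - rv (c ᵥ* A - u)) (hort _ hq)
    have h5 : (rv (v - u) - p) + (p - rv (c ᵥ* A - u)) = rv (v - c ᵥ* A) := by
      funext i
      simp only [rv, Pi.add_apply, Pi.sub_apply]
      push_cast
      ring
    rw [h5, sq_rv] at h4
    have h6 : (((v - c ᵥ* A) ⬝ᵥ (v - c ᵥ* A) : ℤ) : ℝ) ≤ (d : ℝ) := by exact_mod_cast hc
    have h7 : ((y ⬝ᵥ (B *ᵥ (v - u)) + (GG B).det * ((v - u) ⬝ᵥ (v - u)) : ℤ) : ℝ) ≤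
        (((d : ℤ) * (GG B).det : ℤ) : ℝ) := by
      rw [hdist, Int.cast_mul, Int.cast_natCast, mul_comm (d : ℝ)]
      exact mul_le_mul_of_nonneg_left (h4.trans h6) hdetR
    exact_mod_cast h7

end Pool.Agent.LAT.H41
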